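import Pool.Agent.NBT.StmtsE
import Pool.Agent.Helper17_NTW.FNT

/-!
# NBT, row FNG: finitely many group elements, bounded factors
-/

set_option autoImplicit false

open Matrix Filter Topology

namespace Pool.Agent.NBT.H98

open Pool.Agent.PFS Pool.Agent.PFJ Pool.Agent.NBT

theorem nonneg_of_smul {n : ℕ} {C : Set (V n)} (h : PCone C) {p : V n} (hp : p ∈ C) {c : ℝ}
    (hc : c • p ∈ closure C) : 0 ≤ c := by
  by_contra hneg
  rw [not_le] at hneg
  have h1 : (-c)⁻¹ • (c • p) ∈ closure C := h.cl_smul hc (inv_pos.2 (by linarith)).le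
  have h2 : (-c)⁻¹ • (c • p) = -p := by
    rw [smul_smul]
    have h3 : (-c)⁻¹ * c = -1 := by
      have h4 : c ≠ 0 := hneg.ne
      field_simp
    rw [h3, neg_one_smul]
  rw [h2] at h1
  have h3 := h.salient p (subset_closure hp) h1
  rw [h3] at hp
  exact h.zero hp

theorem fng : FngStmt := by
  classical
  intro n C Γ Γ₀ hC hle p hp q hq
  have h := hC.toPCone
  have hfin : {γ : GL (Fin n) ℝ | γ ∈ Γ₀ ∧ ∃ s : ℝ, 0 < s ∧
      (2 : ℝ) • (s • act γ q) - p ∈ closure C ∧
      (2 : ℝ) • p - s • act γ q ∈ closure C}.Finite := by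
    refine (Pool.Agent.NTW.H17.fnt n C Γ hC p hp q hq).subset ?_
    rintro γ ⟨hγ, s, hs, h1, h2⟩
    refine ⟨hle hγ, s, hs, ?_, ?_⟩
    · have hx : s • act γ q ∈ C := h.smul _ (hC.mem γ (hle hγ) q hq) s hs
      have h5 := h.cl_add (h.cl_smul (subset_closure hx) (t := 2) (by norm_num)) h1
      have h6 : (2 : ℝ) • (s • act γ q) + ((2 : ℝ) • (s • act γ q) - p) =
          (4 : ℝ) • (s • act γ q) - p := by module
      rwa [h6] at h5
    · have h5 := h.cl_add (h.cl_smul (subset_closure hp) (t := 2) (by norm_num)) h2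
      have h6 : (2 : ℝ) • p + ((2 : ℝ) • p - s • act γ q) = (4 : ℝ) • p - s • act γ q := by module
      rwa [h6] at h5
  refine ⟨hfin, ?_⟩
  have hA : ∀ γ : GL (Fin n) ℝ, ∃ A : ℝ, 0 < A ∧ (γ ∈ Γ₀ →
      A • act γ q - p ∈ closure C ∧ A • p - act γ q ∈ closure C) := by
    intro γ
    by_cases hγ : γ ∈ Γ₀
    · have hx : act γ q ∈ C := hC.mem γ (hle hγ) q hq
      obtain ⟨A1, hA1, h1⟩ := h.absorb hx p
      obtain ⟨A2, hA2, h2⟩ := h.absorb hp (act γ q)
      refine ⟨A1 + A2, by linarith, fun _ => ⟨?_, ?_⟩⟩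
      · have h3 := h.cl_add (subset_closure h1) (h.cl_smul (subset_closure hx) hA2.le)
        have h4 : A1 • act γ q - p + A2 • act γ q = (A1 + A2) • act γ q - p := by module
        rwa [h4] at h3
      · have h3 := h.cl_add (subset_closure h2) (h.cl_smul (subset_closure hp) hA1.le)
        have h4 : A2 • p - act γ q + A1 • p = (A1 + A2) • p - act γ q := by module
        rwa [h4] at h3
    · exact ⟨1, one_pos, fun h' => absurd h' hγ⟩
  choose A hA0 hA1 using hA
  set M : ℝ := 1 + ∑ γ ∈ hfin.toFinset, A γ with hM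
  have hM0 : 0 < M := by
    have : 0 ≤ ∑ γ ∈ hfin.toFinset, A γ := Finset.sum_nonneg fun γ _ => (hA0 γ).le
    linarith
  refine ⟨(2 * M)⁻¹, 2 * M, by positivity, ?_⟩
  intro γ hγ s hs h1 h2
  have hmem : γ ∈ hfin.toFinset := by
    rw [Set.Finite.mem_toFinset]
    exact ⟨hγ, s, hs, h1, h2⟩
  have hle' : A γ ≤ M := by
    have := Finset.single_le_sum (f := A) (fun γ _ => (hA0 γ).le) hmem
    linarith
  obtain ⟨a1, a2⟩ := hA1 γ hγ
  have hlow : 0 ≤ 2 * s * A γ - 1 := by
    refine nonneg_of_smul h hp ?_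
    have h5 := h.cl_add (h.cl_smul a2 (t := 2 * s) (by positivity)) h1
    have h6 : (2 * s) • (A γ • p - act γ q) + ((2 : ℝ) • (s • act γ q) - p) =
        (2 * s * A γ - 1) • p := by module
    rwa [h6] at h5
  have hup : 0 ≤ 2 * A γ - s := by
    refine nonneg_of_smul h hp ?_
    have h5 := h.cl_add (h.cl_smul h2 (t := A γ) (hA0 γ).le) (h.cl_smul a1 (t := s) hs.le)
    have h6 : A γ • ((2 : ℝ) • p - s • act γ q) + s • (A γ • act γ q - p) =
        (2 * A γ - s) • p := by module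
    rwa [h6] at h5
  constructor
  · rw [inv_le_comm₀ (by positivity) hs]
    rw [← one_div, div_le_iff₀ hs]
    nlinarith
  · linarith

end Pool.Agent.NBT.H98
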